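import Pool.Agent.W_be22fd_h76sel.Sel
import Pool.Agent.W_be22fd_h78.Calc

/-!
MP_be22fd_co, lower bound: consumer lemmas for the selection theorem.
-/

namespace Pool.Agent.W_be22fd_h76sel

open Metric Real

/-- closed disc on the real diameter `[a, b]` enlarged by `1/16` of its length on both sides -/
noncomputable def N (a b : ℝ) : Set ℂ :=
  closedBall (((a + b) / 2 : ℝ) : ℂ) (9 / 16 * (b - a))

lemma N_mono {a b a' b' : ℝ} (hab : a ≤ b) (ha : a' ≤ a) (hb : b ≤ b') : N a b ⊆ N a' b' := by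
  unfold N
  apply closedBall_subset_closedBall'
  rw [dist_real]
  have : |(a + b) / 2 - (a' + b') / 2| ≤ ((b' - a') - (b - a)) / 2 := by
    rw [abs_le]; constructor <;> linarith
  have h2 : 0 ≤ b' - a' - (b - a) := by linarith
  linarith

lemma N_subset_closedBall {a b e R : ℝ} (h1 : e - R ≤ a - (b - a) / 16)
    (h2 : b + (b - a) / 16 ≤ e + R) : N a b ⊆ closedBall (e : ℂ) R := by
  unfold N
  apply closedBall_subset_closedBall'
  rw [dist_real]
  have : |(a + b) / 2 - e| ≤ R - 9 / 16 * (b - a) := by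
    rw [abs_le]; constructor <;> linarith
  linarith

/-- The disc containing all supports is contained in `N (t 0) (t K)`. -/
lemma D_subset_N {a b : ℝ} : D (a - (b - a) / 16) (b + (b - a) / 16) ⊆ N a b := by
  unfold D N
  apply ball_subset_closedBall.trans
  apply closedBall_subset_closedBall'
  rw [dist_real]
  have : (a - (b - a) / 16 + (b + (b - a) / 16)) / 2 - (a + b) / 2 = 0 := by ring
  rw [this, abs_zero]
  linarith

variable {t : ℕ → ℝ} {K : ℕ}

/-- Use of an `M` item. -/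
theorem Item.Valid.useM {k : ℕ} {e ρ x0 x1 : ℝ} (hv : (Item.M k e ρ x0 x1).Valid t K) {x : ℝ}
    (hx0 : x0 ≤ x) (hx1 : x ≤ x1) :
    t k ≤ x ∧ x ≤ t (k + 1) ∧ |x - e| ≤ 3 / 4 * ρ ∧
      N (t (k - 1)) x ⊆ closedBall (e : ℂ) (21 / 25 * ρ) := by
  obtain ⟨v1, v2, v3, v4, v5, v6, v7, v8, v9, v10, v11⟩ := hv
  refine ⟨by linarith, by linarith, ?_, ?_⟩
  · rw [abs_le]; constructor <;> linarith
  · apply N_subset_closedBall <;> linarith

/-- Use of a `Z` item: `x = p + s exp τ'`, `τ ≤ τ' ≤ τ + log 2`. -/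
theorem Item.Valid.useZ {k : ℕ} {p s τ B : ℝ} (hv : (Item.Z k p s τ B).Valid t K) {τ' : ℝ}
    (h0 : τ ≤ τ') (h1 : τ' ≤ τ + log 2) (htk : t (k - 1) ≤ t k) :
    t k ≤ p + s * exp τ' ∧ p + s * exp τ' ≤ t (k + 1) ∧
      (p + 3 * (2 * exp (τ - B / 2)) ≤ t (k - 1) ∨
        (p + s * exp τ') + 3 * (2 * exp (τ - B / 2)) ≤ p) ∧
      ∀ y ∈ N (t (k - 1)) (p + s * exp τ'), 2 * exp (τ - B / 2) < ‖y - (p : ℂ)‖ →
        |log ‖y - (p : ℂ)‖ - τ'| ≤ B / 2 := by
  have e1 : exp τ ≤ exp τ' := exp_le_exp.2 h0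
  have e2 : exp τ' ≤ 2 * exp τ := by
    have := exp_le_exp.2 h1
    rwa [exp_add, exp_log (by norm_num), mul_comm] at this
  have e3 : exp (τ + B / 2) ≤ exp (τ' + B / 2) := exp_le_exp.2 (by linarith)
  obtain ⟨v1, v2, v3, v4, v5, v6⟩ := hv
  have main : ∀ y : ℂ, y ∈ closedBall (p : ℂ) (exp (τ + B / 2)) → 2 * exp (τ - B / 2) < ‖y - (p : ℂ)‖ →
      |log ‖y - (p : ℂ)‖ - τ'| ≤ B / 2 := by
    intro y hy hy2
    rw [mem_closedBall, Complex.dist_eq] at hy
    have hpos : 0 < ‖y - (p : ℂ)‖ := lt_trans (by positivity) hy2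
    rw [abs_le]
    constructor
    · have h3 : log (2 * exp (τ - B / 2)) ≤ log ‖y - (p : ℂ)‖ :=
        Real.log_le_log (by positivity) hy2.le
      rw [Real.log_mul (by norm_num) (exp_pos _).ne', Real.log_exp] at h3
      linarith
    · have h3 : log ‖y - (p : ℂ)‖ ≤ log (exp (τ' + B / 2)) :=
        Real.log_le_log hpos (hy.trans e3)
      rw [Real.log_exp] at h3
      linarith
  rcases v6 with ⟨rfl, w1, w2, w3, w4, w5⟩ | ⟨rfl, w1, w2, w3, w4, w5⟩
  · simp only [one_mul]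
    refine ⟨by linarith, by linarith, Or.inl (by linarith), fun y hy hy2 => main y ?_ hy2⟩
    refine (N_subset_closedBall (e := p) (R := exp (τ + B / 2)) ?_ ?_) hy <;> linarith
  · simp only [neg_mul, one_mul]
    refine ⟨by linarith, by linarith, Or.inr (by linarith), fun y hy hy2 => main y ?_ hy2⟩
    refine (N_subset_closedBall (e := p) (R := exp (τ + B / 2)) ?_ ?_) hy <;> linarith

lemma log_three_halves : (2 / 5 : ℝ) ≤ log (3 / 2) := by
  rw [Real.le_log_iff_exp_le (by norm_num)]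
  have h := Real.exp_bound' (x := 2 / 5) (by norm_num) (by norm_num) (n := 4) (by norm_num)
  refine h.trans ?_
  norm_num [Finset.sum_range_succ, Nat.factorial]

/-- The number of selected items against the gain of `Calc.lean`. -/
theorem count_gain (K : ℕ) (hK : 1 ≤ K) (M : ℝ) (hM : 0 ≤ M) :
    ∃ a m0 : ℕ, K ≤ 2 ^ a ∧ M < (3 / 2 : ℝ) ^ m0 ∧
      W_be22fd_h78.gain (1 / 220) 4 K M ≤ ((K : ℝ) - 8) / QQ a m0 - 5 / 2 := by
  set a := Nat.clog 2 K with ha
  obtain ⟨m0, hm0, hm0'⟩ : ∃ m0 : ℕ, M < (3 / 2 : ℝ) ^ m0 ∧ (m0 : ℝ) ≤ 5 / 2 * log (2 + M) + 1 := by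
    refine ⟨⌊5 / 2 * log (2 + M)⌋₊ + 1, ?_, ?_⟩
    · have h1 : 5 / 2 * log (2 + M) < (⌊5 / 2 * log (2 + M)⌋₊ + 1 : ℕ) := by
        push_cast
        exact Nat.lt_floor_add_one _
      have h2 : log (2 + M) ≤ ((⌊5 / 2 * log (2 + M)⌋₊ + 1 : ℕ) : ℝ) * log (3 / 2) := by
        have h3 := log_three_halves
        have h4 : (0 : ℝ) ≤ ((⌊5 / 2 * log (2 + M)⌋₊ + 1 : ℕ) : ℝ) := Nat.cast_nonneg _
        nlinarith
      rw [← Real.log_pow] at h2
      have h5 := (Real.log_le_log_iff (by linarith) (by positivity)).1 h2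
      linarith
    · push_cast
      have h1 : (0 : ℝ) ≤ 5 / 2 * log (2 + M) := by
        have := Real.log_nonneg (by linarith : (1 : ℝ) ≤ 2 + M)
        linarith
      linarith [Nat.floor_le h1]
  refine ⟨a, m0, Nat.le_pow_clog (by norm_num) K, hm0, ?_⟩
  have hKr : (1 : ℝ) ≤ K := by exact_mod_cast hK
  have hlogK : 0 ≤ log K := Real.log_nonneg hKr
  have hlogM : 0 ≤ log (2 + M) := Real.log_nonneg (by linarith)
  have ha2 : (a : ℝ) ≤ 3 / 2 * log K + 1 := by
    rcases Nat.eq_zero_or_pos a with h | h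
    · rw [h]; push_cast; linarith
    · have h1 : 2 ^ (a - 1) < K := by
        rw [← Nat.lt_clog_iff_pow_lt (by norm_num)]
        omega
      have h2 : ((2 : ℝ) ^ (a - 1)) ≤ K := by exact_mod_cast h1.le
      have h3 := Real.log_le_log (by positivity) h2
      rw [Real.log_pow] at h3
      have h4 := two_thirds_le_log_two
      have h5 : ((a - 1 : ℕ) : ℝ) = a - 1 := by push_cast [Nat.cast_sub h]; ring
      rw [h5] at h3
      have h6 : (0 : ℝ) ≤ a - 1 := by
        have : (1 : ℝ) ≤ a := by exact_mod_cast h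
        linarith
      nlinarith
  have hQ := QQ_pos a m0
  have hQ1 : ((QQ a m0 : ℕ) : ℝ) ≤ 220 * (1 + log K + log (2 + M)) := by
    have e2 : ((QQ a m0 : ℕ) : ℝ) = 4 * a + 8 * m0 + 204 := by
      unfold QQ nn; push_cast; ring
    rw [e2]
    linarith
  have hQ2 : (8 : ℝ) ≤ QQ a m0 := by
    have : 8 ≤ QQ a m0 := by unfold QQ; omega
    exact_mod_cast this
  unfold W_be22fd_h78.gain
  have h1 : 1 / 220 * (K : ℝ) / (1 + log K + log (2 + M)) ≤ K / QQ a m0 := by
    rw [div_le_div_iff₀ (by linarith) hQ]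
    nlinarith
  have h2 : (8 : ℝ) / QQ a m0 ≤ 1 := by rw [div_le_one hQ]; exact hQ2
  rw [sub_div]
  linarith

end Pool.Agent.W_be22fd_h76sel
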