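import Mathlib

/-!
MP_be22fd_co, lower bound: selection lemma (section 4 of helper86's blueprint).
Definitions: items (data of tests), their supports, validity, families, clusters.
-/

namespace Pool.Agent.W_be22fd_h76sel

open Metric Real

/-- Data of a test. `M`: a disc with real diameter `(e - ρ, e + ρ)`, pole in `[x0, x1]`.
`Z`: an annulus around the real point `p`, pole at `p + s exp τ'`, `τ' ∈ [τ, τ + log 2]`,
`s = 1` or `s = -1`. -/
inductive Item where
  | M (k : ℕ) (e ρ x0 x1 : ℝ) : Item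
  | Z (k : ℕ) (p s τ B : ℝ) : Item

/-- Support of an item. -/
noncomputable def Item.supp : Item → Set ℂ
  | .M _ e ρ _ _ => ball (e : ℂ) ρ
  | .Z _ p _ τ B => {z | exp (τ - B) < ‖z - (p : ℂ)‖ ∧ ‖z - (p : ℂ)‖ < 2 * exp (τ + B)}

/-- Validity of an item with respect to the points `t 0 < ... < t K`. -/
def Item.Valid (t : ℕ → ℝ) (K : ℕ) : Item → Prop
  | .M k e ρ x0 x1 => 1 ≤ k ∧ k < K ∧ 0 < ρ ∧ t k ≤ x0 ∧ x0 < x1 ∧ x1 ≤ t (k + 1) ∧
      ρ ≤ 12 * (x1 - x0) ∧ e - 3 / 4 * ρ ≤ x0 ∧ x1 ≤ e + 3 / 4 * ρ ∧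
      e - 21 / 25 * ρ ≤ t (k - 1) - (x1 - t (k - 1)) / 16 ∧
      x1 + (x1 - t (k - 1)) / 16 ≤ e + 21 / 25 * ρ
  | .Z k p s τ B => 1 ≤ k ∧ k < K ∧ t 0 ≤ p ∧ p ≤ t K ∧ 11 ≤ B ∧
      ((s = 1 ∧ t k ≤ p + exp τ ∧ p + 2 * exp τ ≤ t (k + 1) ∧
          p + 6 * exp (τ - B / 2) ≤ t (k - 1) ∧
          p - exp (τ + B / 2) ≤ t (k - 1) - ((p + 2 * exp τ) - t (k - 1)) / 16 ∧
          (p + 2 * exp τ) + ((p + 2 * exp τ) - t (k - 1)) / 16 ≤ p + exp (τ + B / 2)) ∨
        (s = -1 ∧ t k ≤ p - 2 * exp τ ∧ p - exp τ ≤ t (k + 1) ∧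
          p - exp τ + 6 * exp (τ - B / 2) ≤ p ∧
          p - exp (τ + B / 2) ≤ t (k - 1) - ((p - exp τ) - t (k - 1)) / 16 ∧
          (p - exp τ) + ((p - exp τ) - t (k - 1)) / 16 ≤ p + exp (τ + B / 2)))

/-- There is a family of at least `r` valid items with pairwise disjoint supports in `S`. -/
def HasFam (t : ℕ → ℝ) (K : ℕ) (S : Set ℂ) (r : ℝ) : Prop :=
  ∃ L : List Item, r ≤ L.length ∧ L.Pairwise (fun a b => Disjoint a.supp b.supp) ∧
    ∀ it ∈ L, it.Valid t K ∧ it.supp ⊆ S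

/-- Open disc with real diameter `(a, b)`. -/
noncomputable def D (a b : ℝ) : Set ℂ := ball (((a + b) / 2 : ℝ) : ℂ) ((b - a) / 2)

/-- Open disc of the cluster `[i, j]` with parameter `ρ`. -/
noncomputable def Hd (t : ℕ → ℝ) (i j : ℕ) (ρ : ℝ) : Set ℂ := D (t i - ρ / 2) (t j + ρ / 2)

/-- gap after point `l` -/
def gap (t : ℕ → ℝ) (l : ℕ) : ℝ := t (l + 1) - t l

lemma dist_real (x y : ℝ) : dist (x : ℂ) (y : ℂ) = |x - y| := by
  rw [Complex.dist_eq, ← Complex.ofReal_sub, Complex.norm_real, Real.norm_eq_abs]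

lemma D_subset {a b a' b' : ℝ} (ha : a' ≤ a) (hb : b ≤ b') : D a b ⊆ D a' b' := by
  unfold D
  apply Metric.ball_subset_ball'
  rw [dist_real]
  have : |(a + b) / 2 - (a' + b') / 2| ≤ (b' - a') / 2 - (b - a) / 2 := by
    rw [abs_le]; constructor <;> linarith
  linarith

lemma D_disjoint {a b a' b' : ℝ} (h : b ≤ a') : Disjoint (D a b) (D a' b') := by
  unfold D
  apply Metric.ball_disjoint_ball
  rw [dist_real]
  have : (a' + b') / 2 - (a + b) / 2 ≤ |(a + b) / 2 - (a' + b') / 2| := by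
    rw [abs_sub_comm]; exact le_abs_self _
  linarith

lemma ball_eq_D (e ρ : ℝ) : ball (e : ℂ) ρ = D (e - ρ) (e + ρ) := by
  unfold D
  congr 1
  · congr 1; ring
  · ring

lemma supp_M (k : ℕ) (e ρ x0 x1 : ℝ) : (Item.M k e ρ x0 x1).supp = D (e - ρ) (e + ρ) := by
  rw [← ball_eq_D]; rfl

lemma HasFam.mono {t : ℕ → ℝ} {K : ℕ} {S S' : Set ℂ} {r r' : ℝ} (h : HasFam t K S r)
    (hS : S ⊆ S') (hr : r' ≤ r) : HasFam t K S' r' := by
  obtain ⟨L, h1, h2, h3⟩ := h
  exact ⟨L, hr.trans h1, h2, fun it hit => ⟨(h3 it hit).1, (h3 it hit).2.trans hS⟩⟩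

lemma HasFam.zero (t : ℕ → ℝ) (K : ℕ) (S : Set ℂ) : HasFam t K S 0 :=
  ⟨[], by simp, by simp, by simp⟩

lemma HasFam.one {t : ℕ → ℝ} {K : ℕ} {S : Set ℂ} (it : Item) (h1 : it.Valid t K)
    (h2 : it.supp ⊆ S) : HasFam t K S 1 :=
  ⟨[it], by simp, by simp, by simpa using ⟨h1, h2⟩⟩

lemma HasFam.add {t : ℕ → ℝ} {K : ℕ} {S1 S2 S : Set ℂ} {r1 r2 : ℝ} (h1 : HasFam t K S1 r1)
    (h2 : HasFam t K S2 r2) (hd : Disjoint S1 S2) (hs1 : S1 ⊆ S) (hs2 : S2 ⊆ S) :
    HasFam t K S (r1 + r2) := by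
  obtain ⟨L1, a1, b1, c1⟩ := h1
  obtain ⟨L2, a2, b2, c2⟩ := h2
  refine ⟨L1 ++ L2, ?_, ?_, ?_⟩
  · rw [List.length_append]; push_cast; linarith
  · rw [List.pairwise_append]
    refine ⟨b1, b2, fun x hx y hy => ?_⟩
    exact Set.disjoint_of_subset (c1 x hx).2 (c2 y hy).2 hd
  · intro it hit
    rcases List.mem_append.1 hit with h | h
    · exact ⟨(c1 it h).1, (c1 it h).2.trans hs1⟩
    · exact ⟨(c2 it h).1, (c2 it h).2.trans hs2⟩

/-! ### Growth lemmas -/

lemma growth (z : ℕ → ℝ) (n : ℕ) (h0 : 0 ≤ z 0) (h1 : ∀ i < n, z i + 2 / 3 ≤ z (i + 1))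
    (h2 : ∀ i < n, (3 / 2) * (z i - 14) ≤ z (i + 1) - 14) (m : ℕ) (hm : 23 + m ≤ n) :
    (3 / 2 : ℝ) ^ m ≤ z (23 + m) - 14 := by
  have hz : ∀ i ≤ n, (2 / 3 : ℝ) * i ≤ z i := by
    intro i
    induction i with
    | zero => intro _; simpa using h0
    | succ i ih =>
      intro hi
      have h3 := h1 i (by omega)
      have h4 := ih (by omega)
      push_cast
      linarith
  induction m with
  | zero =>
    have := hz 23 (by omega)
    norm_num at this ⊢
    linarith
  | succ m ih =>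
    have h3 := ih (by omega)
    have h4 := h2 (23 + m) (by omega)
    have e : 23 + (m + 1) = 23 + m + 1 := by ring
    rw [e, pow_succ]
    linarith

lemma good_index (x : ℕ → ℝ) (N m0 : ℕ) (M : ℝ) (hM : M < (3 / 2 : ℝ) ^ m0)
    (hinc : ∀ i < N, x i + 2 / 3 ≤ x (i + 1)) (hrange : x N - x 0 ≤ M)
    (hN : 2 * (23 + m0) + 1 ≤ N) :
    ∃ i, 0 < i ∧ i < N ∧ 2 * (x i - x (i - 1)) + 14 ≤ x i - x 0 ∧
      2 * (x i - x (i - 1)) + 14 ≤ x N - x i := by
  by_contra hcon
  push Not at hcon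
  have hmono : ∀ i j, i ≤ j → j ≤ N → x i ≤ x j := by
    intro i j hij
    induction j, hij using Nat.le_induction with
    | base => intro _; exact le_rfl
    | succ j hj ih =>
      intro hjN
      have h1 := ih (by omega)
      have h2 := hinc j (by omega)
      linarith
  rcases le_or_gt (x (23 + m0) - x 0) (x N - x (23 + m0)) with hcase | hcase
  · have key := growth (fun i => x i - x 0) (23 + m0) (by simp)
      (fun i hi => by have := hinc i (by omega); linarith)
      (fun i hi => by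
        have h1 := hinc i (by omega)
        have h2 := hcon (i + 1) (by omega) (by omega)
        have h3 : x (i + 1) ≤ x (23 + m0) := hmono _ _ (by omega) (by omega)
        have h4 : x (i + 1) - x 0 < 2 * (x (i + 1) - x (i + 1 - 1)) + 14 := by
          by_contra h5
          push Not at h5
          have h6 := h2 h5
          linarith
        rw [Nat.add_sub_cancel] at h4
        rcases le_or_gt 14 (x i - x 0) with h5 | h5 <;> linarith) m0 (by omega)
    have h1 : x (23 + m0) ≤ x N := hmono _ _ (by omega) le_rfl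
    linarith
  · have key := growth (fun j => x N - x (N - j)) (23 + m0) (by simp)
      (fun j hj => by
        have h1 := hinc (N - (j + 1)) (by omega)
        have e : N - (j + 1) + 1 = N - j := by omega
        rw [e] at h1
        linarith)
      (fun j hj => by
        have h1 := hinc (N - (j + 1)) (by omega)
        have e : N - (j + 1) + 1 = N - j := by omega
        rw [e] at h1
        rcases Nat.eq_zero_or_pos j with rfl | hj0
        · simp only [Nat.sub_zero] at h1 ⊢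
          linarith
        · have h2 := hcon (N - j) (by omega) (by omega)
          have e2 : N - j - 1 = N - (j + 1) := by omega
          rw [e2] at h2
          have h3 : x (23 + m0) ≤ x (N - j) := hmono _ _ (by omega) (by omega)
          have h4 : x N - x (N - j) < 2 * (x (N - j) - x (N - (j + 1))) + 14 := by
            by_contra h5
            push Not at h5
            have h6 := h2 (by linarith)
            linarith
          rcases le_or_gt 14 (x N - x (N - j)) with h5 | h5 <;> linarith) m0 (by omega)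
    have h1 : x 0 ≤ x (N - (23 + m0)) := hmono _ _ (by omega) (by omega)
    linarith

lemma good_index' (x : ℕ → ℝ) (N m0 : ℕ) (M : ℝ) (hM : M < (3 / 2 : ℝ) ^ m0)
    (hinc : ∀ i < N, x i + 2 / 3 ≤ x (i + 1)) (hrange : x N - x 0 ≤ M)
    (hN : 2 * (23 + m0) + 1 ≤ N) :
    ∃ i, 0 < i ∧ i < N ∧ 2 * (x (i + 1) - x i) + 14 ≤ x i - x 0 ∧
      2 * (x (i + 1) - x i) + 14 ≤ x N - x i := by
  obtain ⟨i, h1, h2, h3, h4⟩ := good_index (fun j => - x (N - j)) N m0 M hM
    (fun j hj => by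
      have h1 := hinc (N - (j + 1)) (by omega)
      have e : N - (j + 1) + 1 = N - j := by omega
      rw [e] at h1
      linarith) (by simp; linarith) hN
  refine ⟨N - i, by omega, by omega, ?_, ?_⟩
  · have e : N - (i - 1) = N - i + 1 := by omega
    simp only [e, Nat.sub_self] at h4
    linarith
  · have e : N - (i - 1) = N - i + 1 := by omega
    simp only [e, Nat.sub_zero] at h3
    linarith

end Pool.Agent.W_be22fd_h76sel
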