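import Pool.Agent.W_be22fd_h76sel.Items

/-!
MP_be22fd_co, lower bound: one item outside the core of a long one sided chain.
-/

namespace Pool.Agent.W_be22fd_h76sel

open Metric Real

/-- Hypotheses on the points. -/
structure Pts (t : ℕ → ℝ) (K a m0 : ℕ) (M : ℝ) : Prop where
  pos : ∀ l < K, 0 < gap t l
  range : ∀ l < K, t K - t 0 ≤ exp M * gap t l
  K_pos : 1 ≤ K
  hK : K ≤ 2 ^ a
  hM : M < (3 / 2 : ℝ) ^ m0

variable {t : ℕ → ℝ} {K a m0 : ℕ} {M : ℝ}

lemma Pts.mono (P : Pts t K a m0 M) {i j : ℕ} (hij : i ≤ j) (hj : j ≤ K) : t i ≤ t j := by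
  induction j, hij using Nat.le_induction with
  | base => exact le_rfl
  | succ j hij ih =>
    have h1 := ih (by omega)
    have h2 := P.pos j (by omega)
    unfold gap at h2
    linarith

lemma gaps_le {ρ : ℝ} {i j : ℕ} (hij : i ≤ j) (h : ∀ l, i ≤ l → l < j → gap t l ≤ ρ) :
    t j - t i ≤ ((j - i : ℕ) : ℝ) * ρ := by
  induction j, hij using Nat.le_induction with
  | base => simp
  | succ j hij ih =>
    have h1 := ih (fun l h1 h2 => h l h1 (by omega))
    have h2 := h j hij (by omega)
    unfold gap at h2
    have e : j + 1 - i = (j - i) + 1 := by omega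
    rw [e]
    push_cast
    linarith

lemma Hd_core_subset (P : Pts t K a m0 M) {i' j' : ℕ} {ρ' g V : ℝ} (hij : i' ≤ j')
    (hjK : j' ≤ K) (hg0 : 0 < g) (hρg : ρ' ≤ g)
    (hcore : ∀ l, i' ≤ l → l < j' → gap t l ≤ ρ') (hV : 2 ^ (a + 1) * g ≤ V) :
    t j' - t i' + ρ' / 2 ≤ V := by
  have h1 := gaps_le (t := t) hij hcore
  have h2 : ((j' - i' : ℕ) : ℝ) ≤ K := by exact_mod_cast (by omega : j' - i' ≤ K)
  have h3 : (K : ℝ) ≤ 2 ^ a := by exact_mod_cast P.hK
  have h4 : (1 : ℝ) ≤ 2 ^ a := by exact_mod_cast Nat.one_le_two_pow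
  have h5 : ((j' - i' : ℕ) : ℝ) * ρ' ≤ ((j' - i' : ℕ) : ℝ) * g :=
    mul_le_mul_of_nonneg_left hρg (Nat.cast_nonneg _)
  have h6 : ((j' - i' : ℕ) : ℝ) * g ≤ 2 ^ a * g :=
    mul_le_mul_of_nonneg_right (h2.trans h3) hg0.le
  rw [pow_succ] at hV
  nlinarith

theorem F3R (P : Pts t K a m0 M) {i' j' n : ℕ} {ρ' ρ : ℝ} (hij : i' ≤ j')
    (hjn : j' + (n + 1) ≤ K) (hρ' : 0 < ρ') (hcore : ∀ l, i' ≤ l → l < j' → gap t l ≤ ρ')
    (h1 : ρ' ≤ gap t j') (hmono : ∀ m, m < n → gap t (j' + m) ≤ gap t (j' + (m + 1)))
    (hρ : gap t (j' + n) ≤ ρ) (hn : (a + 2) + (2 * (23 + m0) + 1) ≤ n) :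
    ∃ it : Item, it.Valid t K ∧ Disjoint it.supp (Hd t i' j' ρ') ∧
      ∀ i j, i ≤ i' → j' + (n + 1) ≤ j → j ≤ K → it.supp ⊆ Hd t i j ρ := by
  have hmono' : ∀ m m', m ≤ m' → m' ≤ n → gap t (j' + m) ≤ gap t (j' + m') := by
    intro m m' hm
    induction m', hm using Nat.le_induction with
    | base => intro _; exact le_rfl
    | succ m' hm ih => intro h; exact (ih (by omega)).trans (hmono m' (by omega))
  have hg0 : 0 < gap t j' := P.pos j' (by omega)
  by_cases hfast : ∀ m, 1 ≤ m → m < n → 2 * gap t (j' + (m - 1)) < gap t (j' + m)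
  · -- fast
    set v : ℕ → ℝ := fun m => t (j' + m) - t j' with hv
    have hvd : ∀ m, v (m + 1) - v m = gap t (j' + m) := by
      intro m; simp only [hv, gap]; rw [← add_assoc]; ring
    have hvd' : ∀ m, 1 ≤ m → v m - v (m - 1) = gap t (j' + (m - 1)) := by
      intro m hm
      have := hvd (m - 1)
      rwa [Nat.sub_add_cancel hm] at this
    have hv0 : v 0 = 0 := by simp [hv]
    have hv1 : v 1 = gap t j' := by
      have := hvd 0
      rw [hv0] at this
      simpa using this
    obtain ⟨A, B, C⟩ := vfacts v n hv0 (by rw [hv1]; exact hg0) (by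
      intro m hm hmn
      rw [hvd' m hm, hvd m]
      exact hfast m hm hmn)
    have hrange : v n ≤ exp M * v (a + 2) := by
      have e1 : v n ≤ t K - t 0 := by
        simp only [hv]
        have := P.mono (i := j' + n) (j := K) (by omega) le_rfl
        have := P.mono (i := 0) (j := j') (by omega) (by omega)
        linarith
      have e2 := P.range j' (by omega)
      have e3 := C (a + 1) (by omega)
      have e4 : v 1 ≤ v (a + 2) := by
        have : (1 : ℝ) ≤ 2 ^ (a + 1) := by exact_mod_cast Nat.one_le_two_pow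
        have h0 : 0 < v 1 := by rw [hv1]; exact hg0
        have h5 : 1 * v 1 ≤ 2 ^ (a + 1) * v 1 := mul_le_mul_of_nonneg_right this h0.le
        rw [one_mul] at h5
        exact h5.trans e3
      rw [hv1] at e4
      have e5 : exp M * gap t j' ≤ exp M * v (a + 2) :=
        mul_le_mul_of_nonneg_left e4 (exp_pos M).le
      linarith
    obtain ⟨i, i1, i2, i3, i4⟩ := fastIndexR v n (a + 2) m0 M (by omega) hn P.hM
      (fun m h1 h2 => (A m h1 h2).1) B hrange
    have u1 := (A i (by omega) (by omega)).1
    have u0 := (A (i - 1) (by omega) (by omega)).1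
    have ud : 2 * v (i - 1) ≤ v i := by
      have := B (i - 1) (by omega) (by omega)
      rwa [Nat.sub_add_cancel (by omega)] at this
    have un := (A n (by omega) le_rfl)
    have uc := (A (a + 2) (by omega) (by omega)).1
    refine ⟨Item.Z (j' + i) (t j') 1 (log (v i)) (2 * (log (v i) - log (v (i - 1))) + 11), ?_, ?_,
      ?_⟩
    · apply itemZ_right t K (j' + i) (t j') (v (i - 1)) (v i) (by omega) (by omega)
        (P.mono (by omega) (by omega)) (P.mono (by omega) (by omega)) u0 ud
      · simp only [hv]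
        have e : j' + i - 1 = j' + (i - 1) := by omega
        rw [e]; ring
      · simp only [hv]; ring
      · have := B i (by omega) i2
        simp only [hv] at this ⊢
        have e : j' + i + 1 = j' + (i + 1) := by omega
        rw [e]
        linarith
    · have hin : v (a + 2) ≤
          exp (log (v i) - (2 * (log (v i) - log (v (i - 1))) + 11)) := by
        rw [← Real.log_le_iff_le_exp uc]
        linarith
      apply Disjoint.mono_right _ (suppZ_disjoint hin)
      unfold Hd
      have hc := Hd_core_subset P hij (by omega) hg0 h1 hcore (V := v (a + 2)) (by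
        have := C (a + 1) (by omega)
        rwa [hv1] at this)
      apply D_subset
      · linarith
      · have := P.mono hij (by omega)
        linarith
    · intro i₁ j₁ hi₁ hj₁ hjK
      have hout : 2 * exp (log (v i) + (2 * (log (v i) - log (v (i - 1))) + 11)) ≤ ρ / 2 := by
        have e1 : exp (log 4 + (log (v i) + (2 * (log (v i) - log (v (i - 1))) + 11))) ≤ v n / 2 := by
          have e2 : v n / 2 = exp (log (v n) - log 2) := by
            rw [exp_sub, exp_log un.1, exp_log (by norm_num)]
          rw [e2]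
          apply exp_le_exp.2
          have e3 : log 4 = 2 * log 2 := by
            rw [show (4 : ℝ) = 2 ^ 2 by norm_num, Real.log_pow]; norm_num
          have e4 : log 2 < 0.6931471808 := Real.log_two_lt_d9
          rw [e3]
          linarith
        rw [exp_add, exp_log (by norm_num)] at e1
        have e5 : v n ≤ 2 * gap t (j' + (n - 1)) := by
          have := un.2
          rwa [hvd' n (by omega)] at this
        have e6 : gap t (j' + (n - 1)) ≤ ρ := (hmono' (n - 1) n (by omega) le_rfl).trans hρ
        linarith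
      refine (suppZ_subset hout).trans ?_
      unfold Hd
      apply D_subset
      · have := P.mono (i := i₁) (j := j') (by omega) (by omega)
        linarith
      · have := P.mono (i := j') (j := j₁) (by omega) hjK
        linarith
  · -- slow
    push Not at hfast
    obtain ⟨m, m1, m2, m3⟩ := hfast
    obtain ⟨it, v1, v2⟩ := itemM_right t K (j' + m) (by omega) (P.pos _ (by omega)) (by
      have := hmono m m2
      rwa [← add_assoc] at this)
    have eg : gap t (j' + (m - 1)) = t (j' + m) - t (j' + (m - 1)) := by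
      unfold gap
      have e : j' + (m - 1) + 1 = j' + m := by omega
      rw [e]
    have e1 : gap t j' ≤ gap t (j' + (m - 1)) := by
      have := hmono' 0 (m - 1) (by omega) (by omega)
      simpa using this
    have e2 : t j' ≤ t (j' + (m - 1)) := P.mono (by omega) (by omega)
    have hleft : t j' + ρ' / 2 ≤ t (j' + m) - gap t (j' + m) / 4 := by linarith
    refine ⟨it, v1, ?_, ?_⟩
    · rw [v2, disjoint_comm]
      unfold Hd
      apply D_disjoint
      exact hleft
    · intro i₁ j₁ hi₁ hj₁ hjK
      rw [v2]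
      unfold Hd
      have e3 : t i₁ ≤ t j' := P.mono (by omega) (by omega)
      have e4 : t (j' + m + 2) ≤ t j₁ := P.mono (by omega) hjK
      have e5 := hmono m m2
      have e6 : gap t (j' + (m + 1)) = t (j' + m + 2) - t (j' + m + 1) := rfl
      have e7 : 0 < ρ := lt_of_lt_of_le (P.pos (j' + n) (by omega)) hρ
      have e8 : 0 < gap t (j' + m) := P.pos _ (by omega)
      apply D_subset
      · linarith
      · linarith

theorem F3L (P : Pts t K a m0 M) {i₀ n j' : ℕ} {ρ' ρ : ℝ} (hij : i₀ + n ≤ j')
    (hjK : j' ≤ K) (hnK : i₀ + n ≤ K) (hρ' : 0 < ρ')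
    (hcore : ∀ l, i₀ + n ≤ l → l < j' → gap t l ≤ ρ')
    (h1 : ρ' ≤ gap t (i₀ + n - 1))
    (hmono : ∀ m, i₀ ≤ m → m + 1 < i₀ + n → gap t (m + 1) ≤ gap t m)
    (hρ : gap t i₀ ≤ ρ) (hn : (a + 2) + (2 * (23 + m0) + 1) ≤ n) :
    ∃ it : Item, it.Valid t K ∧ Disjoint it.supp (Hd t (i₀ + n) j' ρ') ∧
      ∀ i j, i ≤ i₀ → j' ≤ j → j ≤ K → it.supp ⊆ Hd t i j ρ := by
  have hmono' : ∀ m m', i₀ ≤ m → m ≤ m' → m' < i₀ + n → gap t m' ≤ gap t m := by
    intro m m' hm0 hm
    induction m', hm using Nat.le_induction with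
    | base => intro _; exact le_rfl
    | succ m' hm ih => intro h; exact (hmono m' (by omega) (by omega)).trans (ih (by omega))
  have hg0 : 0 < gap t (i₀ + n - 1) := P.pos _ (by omega)
  by_cases hfast : ∀ m, 1 ≤ m → m < n → 2 * gap t (i₀ + n - m) < gap t (i₀ + n - (m + 1))
  · -- fast
    set v : ℕ → ℝ := fun m => t (i₀ + n) - t (i₀ + n - m) with hv
    have hvd : ∀ m, m < n → v (m + 1) - v m = gap t (i₀ + n - (m + 1)) := by
      intro m hm
      simp only [hv, gap]
      have e : i₀ + n - (m + 1) + 1 = i₀ + n - m := by omega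
      rw [e]; ring
    have hvd' : ∀ m, 1 ≤ m → m ≤ n → v m - v (m - 1) = gap t (i₀ + n - m) := by
      intro m hm hmn
      have := hvd (m - 1) (by omega)
      rwa [Nat.sub_add_cancel hm] at this
    have hv0 : v 0 = 0 := by simp [hv]
    have hv1 : v 1 = gap t (i₀ + n - 1) := by
      have := hvd 0 (by omega)
      rw [hv0] at this
      simpa using this
    obtain ⟨A, B, C⟩ := vfacts v n hv0 (by rw [hv1]; exact hg0) (by
      intro m hm hmn
      rw [hvd' m hm (by omega), hvd m hmn]
      exact hfast m hm hmn)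
    have hrange : v n ≤ exp M * v (a + 2) := by
      have e1 : v n ≤ t K - t 0 := by
        simp only [hv]
        have := P.mono (i := i₀ + n) (j := K) (by omega) le_rfl
        have := P.mono (i := 0) (j := i₀ + n - n) (by omega) (by omega)
        linarith
      have e2 := P.range (i₀ + n - 1) (by omega)
      have e3 := C (a + 1) (by omega)
      have e4 : v 1 ≤ v (a + 2) := by
        have : (1 : ℝ) ≤ 2 ^ (a + 1) := by exact_mod_cast Nat.one_le_two_pow
        have h0 : 0 < v 1 := by rw [hv1]; exact hg0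
        have h5 : 1 * v 1 ≤ 2 ^ (a + 1) * v 1 := mul_le_mul_of_nonneg_right this h0.le
        rw [one_mul] at h5
        exact h5.trans e3
      rw [hv1] at e4
      have e5 : exp M * gap t (i₀ + n - 1) ≤ exp M * v (a + 2) :=
        mul_le_mul_of_nonneg_left e4 (exp_pos M).le
      linarith
    obtain ⟨i, i1, i2, i3, i4⟩ := fastIndexL v n (a + 2) m0 M (by omega) hn P.hM
      (fun m h1 h2 => (A m h1 h2).1) B hrange
    have u0 := (A i (by omega) (by omega)).1
    have u1 := (A (i + 1) (by omega) (by omega)).1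
    have ud : 2 * v i ≤ v (i + 1) := B i (by omega) i2
    have un := (A n (by omega) le_rfl)
    have uc := (A (a + 2) (by omega) (by omega)).1
    have e4 : log 2 < 0.6931471808 := Real.log_two_lt_d9
    have e4' : 0.6931471803 < log 2 := Real.log_two_gt_d9
    refine ⟨Item.Z (i₀ + n - i) (t (i₀ + n)) (-1) (log (v i) - log 2)
      (2 * (log (v (i + 1)) - log (v i)) + 11), ?_, ?_, ?_⟩
    · apply itemZ_left t K (i₀ + n - i) (t (i₀ + n)) (v i) (v (i + 1)) (by omega) (by omega)
        (P.mono (by omega) (by omega)) (P.mono (by omega) (by omega)) u0 (by linarith)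
      · simp only [hv]
        have e : i₀ + n - i - 1 = i₀ + n - (i + 1) := by omega
        rw [e]; ring
      · simp only [hv]; ring
      · have h5 := B (i - 1) (by omega) (by omega)
        rw [Nat.sub_add_cancel (by omega)] at h5
        have e : i₀ + n - i + 1 = i₀ + n - (i - 1) := by omega
        have h6 : t (i₀ + n) - v (i - 1) = t (i₀ + n - i + 1) := by
          simp only [hv]; rw [e]; ring
        linarith
    · have hin : v (a + 2) ≤
          exp (log (v i) - log 2 - (2 * (log (v (i + 1)) - log (v i)) + 11)) := by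
        rw [← Real.log_le_iff_le_exp uc]
        linarith
      apply Disjoint.mono_right _ (suppZ_disjoint hin)
      unfold Hd
      have hc := Hd_core_subset P hij (by omega) hg0 h1 hcore (V := v (a + 2)) (by
        have := C (a + 1) (by omega)
        rwa [hv1] at this)
      apply D_subset
      · have := P.mono hij (by omega)
        linarith
      · linarith
    · intro i₁ j₁ hi₁ hj₁ hjK
      have hout : 2 * exp (log (v i) - log 2 + (2 * (log (v (i + 1)) - log (v i)) + 11)) ≤
          ρ / 2 := by
        have e1 : exp (log 4 + (log (v i) - log 2 + (2 * (log (v (i + 1)) - log (v i)) + 11)))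
            ≤ v n / 2 := by
          have e2 : v n / 2 = exp (log (v n) - log 2) := by
            rw [exp_sub, exp_log un.1, exp_log (by norm_num)]
          rw [e2]
          apply exp_le_exp.2
          have e3 : log 4 = 2 * log 2 := by
            rw [show (4 : ℝ) = 2 ^ 2 by norm_num, Real.log_pow]; norm_num
          rw [e3]
          linarith
        rw [exp_add, exp_log (by norm_num)] at e1
        have e5 : v n ≤ 2 * gap t (i₀ + n - n) := by
          have := un.2
          rwa [hvd' n (by omega) le_rfl] at this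
        have e6 : gap t (i₀ + n - n) ≤ ρ := by
          rw [Nat.add_sub_cancel]; exact hρ
        linarith
      refine (suppZ_subset hout).trans ?_
      unfold Hd
      apply D_subset
      · have := P.mono (i := i₁) (j := i₀ + n) (by omega) (by omega)
        linarith
      · have := P.mono (i := i₀ + n) (j := j₁) (by omega) hjK
        linarith
  · -- slow
    push Not at hfast
    obtain ⟨m, m1, m2, m3⟩ := hfast
    -- l = i₀ + n - (m+1), l + 1 = i₀ + n - m
    obtain ⟨l, hl⟩ : ∃ l, l = i₀ + n - (m + 1) := ⟨_, rfl⟩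
    have hl1 : i₀ + n - m = l + 1 := by omega
    rw [← hl, hl1] at m3
    have g1 : 0 < gap t (l + 1) := P.pos _ (by omega)
    have g2 : gap t (l + 1) ≤ gap t l := hmono l (by omega) (by omega)
    obtain ⟨it, v1, v2⟩ := itemM_left t K l (by omega) g1 g2 m3
    have g3 : gap t (i₀ + n - 1) ≤ gap t (l + 1) :=
      hmono' (l + 1) (i₀ + n - 1) (by omega) (by omega) (by omega)
    have g4 : t (l + 2) ≤ t (i₀ + n) := P.mono (by omega) (by omega)
    have g5 : gap t (l + 1) = t (l + 2) - t (l + 1) := rfl
    have g6 : gap t l ≤ gap t i₀ := hmono' i₀ l le_rfl (by omega) (by omega)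
    have hright : t (l + 1) + gap t (l + 1) / 2 ≤ t (i₀ + n) - ρ' / 2 := by linarith
    refine ⟨it, v1, ?_, ?_⟩
    · rw [v2]
      unfold Hd
      apply D_disjoint
      exact hright
    · intro i₁ j₁ hi₁ hj₁ hjK
      rw [v2]
      unfold Hd
      have e3 : t i₁ ≤ t l := P.mono (by omega) (by omega)
      have e4 : t (i₀ + n) ≤ t j₁ := P.mono (by omega) hjK
      have e7 : 0 < ρ := lt_of_lt_of_le (P.pos i₀ (by omega)) hρ
      apply D_subset
      · linarith
      · linarith

end Pool.Agent.W_be22fd_h76sel
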