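import Pool.Agent.W_be22fd_h76sel.Chain

/-!
MP_be22fd_co, lower bound: number of items in an isolated cluster.
-/

namespace Pool.Agent.W_be22fd_h76sel

open Metric Real

/-- Isolated cluster `[i, j]` with parameter `ρ`. -/
structure Iso (t : ℕ → ℝ) (K i j : ℕ) (ρ : ℝ) : Prop where
  hij : i ≤ j
  hjK : j ≤ K
  pos : 0 < ρ
  inner : ∀ l, i ≤ l → l < j → gap t l ≤ ρ
  left : 0 < i → ρ ≤ gap t (i - 1)
  right : j < K → ρ ≤ gap t j

variable {t : ℕ → ℝ} {K a m0 : ℕ} {M : ℝ}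

lemma Iso.split (P : Pts t K a m0 M) {i j l : ℕ} {ρ : ℝ} (I : Iso t K i j ρ) (hil : i ≤ l)
    (hlj : l < j) (hmax : ∀ m, i ≤ m → m < j → gap t m ≤ gap t l) :
    Iso t K i l (gap t l) ∧ Iso t K (l + 1) j (gap t l) ∧
      Hd t i l (gap t l) ⊆ Hd t i j ρ ∧ Hd t (l + 1) j (gap t l) ⊆ Hd t i j ρ ∧
      Disjoint (Hd t i l (gap t l)) (Hd t (l + 1) j (gap t l)) := by
  have hjK := I.hjK
  have hg : 0 < gap t l := P.pos l (by omega)
  have hle : gap t l ≤ ρ := I.inner l hil hlj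
  refine ⟨⟨hil, by omega, hg, fun m h1 h2 => hmax m h1 (by omega),
    fun h => hle.trans (I.left h), fun _ => le_rfl⟩,
    ⟨by omega, hjK, hg, fun m h1 h2 => hmax m (by omega) h2, fun _ => by simp,
    fun h => hle.trans (I.right h)⟩, ?_, ?_, ?_⟩
  · unfold Hd
    have := P.mono (i := l) (j := j) (by omega) hjK
    apply D_subset <;> linarith
  · unfold Hd
    have := P.mono (i := i) (j := l + 1) (by omega) (by omega)
    apply D_subset <;> linarith
  · unfold Hd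
    apply D_disjoint
    unfold gap
    linarith

lemma exists_max_gap (t : ℕ → ℝ) {i j : ℕ} (h : i < j) :
    ∃ l, i ≤ l ∧ l < j ∧ ∀ m, i ≤ m → m < j → gap t m ≤ gap t l := by
  obtain ⟨l, h1, h2⟩ := Finset.exists_max_image (Finset.Ico i j) (gap t)
    ⟨i, Finset.mem_Ico.2 ⟨le_rfl, h⟩⟩
  rw [Finset.mem_Ico] at h1
  exact ⟨l, h1.1, h1.2, fun m h3 h4 => h2 m (Finset.mem_Ico.2 ⟨h3, h4⟩)⟩

lemma exists_min_gap (t : ℕ → ℝ) {i j : ℕ} (h : i < j) :
    ∃ l, i ≤ l ∧ l < j ∧ ∀ m, i ≤ m → m < j → gap t l ≤ gap t m := by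
  obtain ⟨l, h1, h2⟩ := Finset.exists_min_image (Finset.Ico i j) (gap t)
    ⟨i, Finset.mem_Ico.2 ⟨le_rfl, h⟩⟩
  rw [Finset.mem_Ico] at h1
  exact ⟨l, h1.1, h1.2, fun m h3 h4 => h2 m (Finset.mem_Ico.2 ⟨h3, h4⟩)⟩

/-- `(i', j', ρ')` is obtained from `(i, j, ρ)` by removing end points alone on their side of the
maximal gap. -/
structure Ch (t : ℕ → ℝ) (K i j : ℕ) (ρ : ℝ) (i' j' : ℕ) (ρ' : ℝ) : Prop where
  iso : Iso t K i' j' ρ'
  jK : j ≤ K
  hi : i ≤ i'
  hj : j' ≤ j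
  sub : Hd t i' j' ρ' ⊆ Hd t i j ρ
  rgap : ∀ m, j' ≤ m → m + 1 < j → gap t m ≤ gap t (m + 1)
  lgap : ∀ m, i ≤ m → m + 1 < i' → gap t (m + 1) ≤ gap t m

lemma Ch.refl {i j : ℕ} {ρ : ℝ} (I : Iso t K i j ρ) : Ch t K i j ρ i j ρ :=
  ⟨I, I.hjK, le_rfl, le_rfl, Set.Subset.rfl, fun m h1 h2 => by omega, fun m h1 h2 => by omega⟩

lemma Ch.stepL (P : Pts t K a m0 M) {i j i' j' : ℕ} {ρ ρ' : ℝ} (C : Ch t K i j ρ i' j' ρ')
    (h : i' < j') (hmax : ∀ m, i' ≤ m → m < j' → gap t m ≤ gap t i') :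
    Ch t K i j ρ (i' + 1) j' (gap t i') := by
  obtain ⟨_, s2, _, s4, _⟩ := C.iso.split P le_rfl h hmax
  refine ⟨s2, C.jK, by have := C.hi; omega, C.hj, s4.trans C.sub, C.rgap, ?_⟩
  intro m h1 h2
  rcases Nat.lt_or_ge (m + 1) i' with h3 | h3
  · exact C.lgap m h1 h3
  · have e : m + 1 = i' := by omega
    rw [e]
    have h4 := C.iso.left (by omega)
    have h5 := C.iso.inner i' le_rfl h
    have e2 : i' - 1 = m := by omega
    rw [e2] at h4
    exact h5.trans h4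

lemma Ch.stepR (P : Pts t K a m0 M) {i j i' l : ℕ} {ρ ρ' : ℝ} (C : Ch t K i j ρ i' (l + 1) ρ')
    (h : i' ≤ l) (hmax : ∀ m, i' ≤ m → m < l + 1 → gap t m ≤ gap t l) :
    Ch t K i j ρ i' l (gap t l) := by
  obtain ⟨s1, _, s3, _, _⟩ := C.iso.split P h (Nat.lt_succ_self l) hmax
  refine ⟨s1, C.jK, C.hi, by have := C.hj; omega, s3.trans C.sub, ?_, C.lgap⟩
  intro m h1 h2
  rcases Nat.lt_or_ge l m with h3 | h3
  · exact C.rgap m (by omega) h2
  · have e : m = l := by omega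
    rw [e]
    have hjK := C.jK
    have h4 := C.iso.right (by omega)
    have h5 := C.iso.inner l h (Nat.lt_succ_self l)
    exact h5.trans h4

/-- chain with removals on both sides -/
lemma chain (P : Pts t K a m0 M) {i j : ℕ} {ρ : ℝ} (I : Iso t K i j ρ) (n : ℕ)
    (hn : n + 1 ≤ j - i) :
    (∃ i' j' ρ' l, Ch t K i j ρ i' j' ρ' ∧ (i' - i) + (j - j') < n ∧ i' + 1 ≤ l ∧ l + 1 < j' ∧
      ∀ m, i' ≤ m → m < j' → gap t m ≤ gap t l) ∨
    (∃ i' j' ρ', Ch t K i j ρ i' j' ρ' ∧ (i' - i) + (j - j') = n) := by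
  induction n with
  | zero => exact Or.inr ⟨i, j, ρ, Ch.refl I, by simp⟩
  | succ n ih =>
    rcases ih (by omega) with ⟨i', j', ρ', l, h1, h2, h3⟩ | ⟨i', j', ρ', h1, h2⟩
    · exact Or.inl ⟨i', j', ρ', l, h1, by omega, h3⟩
    · have hi := h1.hi
      have hj := h1.hj
      obtain ⟨l, l1, l2, l3⟩ := exists_max_gap t (i := i') (j := j') (by omega)
      rcases Nat.eq_or_lt_of_le l1 with l4 | l4
      · subst l4
        exact Or.inr ⟨i' + 1, j', _, h1.stepL P l2 l3, by omega⟩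
      · rcases Nat.eq_or_lt_of_le (Nat.succ_le_of_lt l2) with l5 | l5
        · subst l5
          exact Or.inr ⟨i', l, _, h1.stepR P l1 l3, by omega⟩
        · exact Or.inl ⟨i', j', ρ', l, h1, by omega, l4, l5, l3⟩

/-- chain with removals on the left side -/
lemma chainL (P : Pts t K a m0 M) {i j : ℕ} {ρ : ℝ} (I : Iso t K i j ρ) (n : ℕ)
    (hn : n ≤ j - i) :
    (∃ i' ρ' l, Ch t K i j ρ i' j ρ' ∧ i' - i < n ∧ i' + 1 ≤ l ∧ l < j ∧
      ∀ m, i' ≤ m → m < j → gap t m ≤ gap t l) ∨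
    (∃ ρ', Ch t K i j ρ (i + n) j ρ') := by
  induction n with
  | zero => exact Or.inr ⟨ρ, Ch.refl I⟩
  | succ n ih =>
    rcases ih (by omega) with ⟨i', ρ', l, h1, h2, h3⟩ | ⟨ρ', h1⟩
    · exact Or.inl ⟨i', ρ', l, h1, by omega, h3⟩
    · obtain ⟨l, l1, l2, l3⟩ := exists_max_gap t (i := i + n) (j := j) (by omega)
      rcases Nat.eq_or_lt_of_le l1 with l4 | l4
      · subst l4
        exact Or.inr ⟨_, h1.stepL P l2 l3⟩
      · exact Or.inl ⟨i + n, ρ', l, h1, by omega, l4, l2, l3⟩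

/-- length of one sided chains -/
def nn (a m0 : ℕ) : ℕ := (a + 2) + (2 * (23 + m0) + 1)

/-- the loss -/
def QQ (a m0 : ℕ) : ℕ := 4 * (nn a m0 + 1) + 4

lemma HasFam.succ {S core : Set ℂ} {r : ℝ} (h : HasFam t K core r) (hs : core ⊆ S)
    {it : Item} (h1 : it.Valid t K) (h2 : Disjoint it.supp core) (h3 : it.supp ⊆ S) :
    HasFam t K S (r + 1) :=
  h.add (HasFam.one it h1 Set.Subset.rfl) h2.symm hs h3

theorem claimA (P : Pts t K a m0 M) : ∀ (s i j : ℕ) (ρ : ℝ), j - i + 1 = s → Iso t K i j ρ → j < K → i < j →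
    HasFam t K (Hd t i j ρ) (s / QQ a m0 + 1 / 2) := by
  have hQ : (0 : ℝ) < QQ a m0 := by unfold QQ; positivity
  intro s
  induction s using Nat.strong_induction_on with
  | _ s IH =>
  intro i j ρ hs I hjK hij
  rcases Nat.lt_or_ge (QQ a m0) (2 * s) with hbig | hsmall
  · have hQ4 : 4 * (nn a m0 + 1) + 4 < 2 * s := hbig
    rcases chain P I (2 * (nn a m0 + 1)) (by omega) with
      ⟨i', j', ρ', l, C, h2, h3, h4, h5⟩ | ⟨i', j', ρ', C, h2⟩
    · obtain ⟨s1, s2, s3, s4, s5⟩ := C.iso.split P (l := l) (by omega) (by omega) h5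
      have hi := C.hi
      have hj := C.hj
      have f1 := IH (l - i' + 1) (by omega) i' l _ rfl s1 (by omega) (by omega)
      have f2 := IH (j' - (l + 1) + 1) (by omega) (l + 1) j' _ rfl s2 (by omega) (by omega)
      refine (f1.add f2 s5 (s3.trans C.sub) (s4.trans C.sub)).mono Set.Subset.rfl ?_
      have e : (l - i' + 1) + (j' - (l + 1) + 1) + (2 * (nn a m0 + 1)) ≥ s + 1 := by omega
      have e' : (s : ℝ) + 1 ≤ ((l - i' + 1 : ℕ) : ℝ) + ((j' - (l + 1) + 1 : ℕ) : ℝ) +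
          2 * (nn a m0 + 1) := by exact_mod_cast e
      have e2 : ((QQ a m0 : ℕ) : ℝ) = 4 * (nn a m0 + 1) + 4 := by unfold QQ; push_cast; ring
      have e3 : (s : ℝ) / QQ a m0 ≤ (((l - i' + 1 : ℕ) : ℝ) + ((j' - (l + 1) + 1 : ℕ) : ℝ)) / QQ a m0
          + 1 / 2 := by
        rw [div_add' _ _ _ hQ.ne', div_le_div_iff_of_pos_right hQ, e2]
        linarith
      rw [add_div] at e3
      linarith
    · have hi := C.hi
      have hj := C.hj
      have hcore := IH (j' - i' + 1) (by omega) i' j' ρ' rfl C.iso (by omega) (by omega)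
      have key : ∃ it : Item, it.Valid t K ∧ Disjoint it.supp (Hd t i' j' ρ') ∧
          it.supp ⊆ Hd t i j ρ := by
        rcases Nat.lt_or_ge (j - j') (nn a m0 + 1) with hside | hside
        · -- left
          have hl : nn a m0 ≤ i' - i := by omega
          obtain ⟨i₀, hi₀⟩ : ∃ i₀, i' = i₀ + nn a m0 := ⟨i' - nn a m0, by omega⟩
          subst hi₀
          obtain ⟨it, v1, v2, v3⟩ := F3L P (i₀ := i₀) (n := nn a m0) (j' := j') (ρ' := ρ')
            (ρ := ρ) C.iso.hij C.iso.hjK (by have := C.iso.hij; omega) C.iso.pos C.iso.inner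
            (C.iso.left (by unfold nn; omega)) (fun m h1 h2 => C.lgap m (by omega) h2)
            (I.inner i₀ (by omega) (by omega)) le_rfl
          exact ⟨it, v1, v2, v3 i j (by omega) hj hjK.le⟩
        · obtain ⟨it, v1, v2, v3⟩ := F3R P (i' := i') (j' := j') (n := nn a m0) (ρ' := ρ')
            (ρ := ρ) C.iso.hij (by omega) C.iso.pos C.iso.inner
            (C.iso.right (by omega)) (fun m h1 => C.rgap (j' + m) (by omega) (by omega))
            (I.inner _ (by omega) (by omega)) le_rfl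
          exact ⟨it, v1, v2, v3 i j hi (by omega) hjK.le⟩
      obtain ⟨it, v1, v2, v3⟩ := key
      refine (hcore.succ C.sub v1 v2 v3).mono Set.Subset.rfl ?_
      have e : (j' - i' + 1) + (2 * (nn a m0 + 1)) = s := by omega
      have e' : (s : ℝ) = ((j' - i' + 1 : ℕ) : ℝ) + 2 * (nn a m0 + 1) := by exact_mod_cast e.symm
      have e2 : ((QQ a m0 : ℕ) : ℝ) = 4 * (nn a m0 + 1) + 4 := by unfold QQ; push_cast; ring
      have e3 : (s : ℝ) / QQ a m0 ≤ ((j' - i' + 1 : ℕ) : ℝ) / QQ a m0 + 1 / 2 := by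
        rw [div_add' _ _ _ hQ.ne', div_le_div_iff_of_pos_right hQ, e2]
        linarith
      linarith
  · obtain ⟨l, l1, l2, l3⟩ := exists_min_gap t hij
    have hg : 0 < gap t l := P.pos l (by omega)
    have hle : gap t l ≤ ρ := I.inner l l1 l2
    obtain ⟨it, v1, v2⟩ := itemM_min t K l (by omega) hg (by
      rcases Nat.eq_or_lt_of_le (Nat.succ_le_of_lt l2) with h | h
      · have h2 := I.right hjK
        rw [← h] at h2
        exact hle.trans h2
      · exact l3 (l + 1) (by omega) h)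
    refine (HasFam.one it v1 ?_).mono Set.Subset.rfl ?_
    · rw [v2]
      unfold Hd
      have h1 := P.mono (i := i) (j := l) l1 (by omega)
      have h2 := P.mono (i := l + 1) (j := j) (by omega) (by omega)
      apply D_subset <;> linarith
    · have e : (s : ℝ) / QQ a m0 ≤ 1 / 2 := by
        rw [div_le_iff₀ hQ]
        have : (2 * s : ℝ) ≤ QQ a m0 := by exact_mod_cast hsmall
        linarith
      linarith

theorem claimB (P : Pts t K a m0 M) : ∀ (s i : ℕ) (ρ : ℝ), K - i + 1 = s → Iso t K i K ρ →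
    HasFam t K (Hd t i K ρ) (s / QQ a m0 - 1 / 2) := by
  have hQ : (0 : ℝ) < QQ a m0 := by unfold QQ; positivity
  intro s
  induction s using Nat.strong_induction_on with
  | _ s IH =>
  intro i ρ hs I
  rcases Nat.lt_or_ge (QQ a m0) (2 * s) with hbig | hsmall
  · have hQ4 : 4 * (nn a m0 + 1) + 4 < 2 * s := hbig
    have hnn : 1 ≤ nn a m0 := by unfold nn; omega
    rcases chainL P I (nn a m0) (by omega) with
      ⟨i', ρ', l, C, h2, h3, h4, h5⟩ | ⟨ρ', C⟩
    · obtain ⟨s1, s2, s3, s4, s5⟩ := C.iso.split P (l := l) (by omega) (by omega) h5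
      have hi := C.hi
      have f1 := claimA P (l - i' + 1) i' l _ rfl s1 (by omega) (by omega)
      have f2 := IH (K - (l + 1) + 1) (by omega) (l + 1) _ rfl s2
      refine (f1.add f2 s5 (s3.trans C.sub) (s4.trans C.sub)).mono Set.Subset.rfl ?_
      have e : (l - i' + 1) + (K - (l + 1) + 1) + nn a m0 ≥ s + 1 := by omega
      have e' : (s : ℝ) + 1 ≤ ((l - i' + 1 : ℕ) : ℝ) + ((K - (l + 1) + 1 : ℕ) : ℝ) +
          nn a m0 := by exact_mod_cast e
      have e2 : ((QQ a m0 : ℕ) : ℝ) = 4 * (nn a m0 + 1) + 4 := by unfold QQ; push_cast; ring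
      have e3 : (s : ℝ) / QQ a m0 ≤ (((l - i' + 1 : ℕ) : ℝ) + ((K - (l + 1) + 1 : ℕ) : ℝ)) / QQ a m0
          + 1 / 2 := by
        rw [div_add' _ _ _ hQ.ne', div_le_div_iff_of_pos_right hQ, e2]
        have : (0 : ℝ) ≤ nn a m0 := Nat.cast_nonneg _
        linarith
      rw [add_div] at e3
      linarith
    · have hcore := IH (K - (i + nn a m0) + 1) (by omega) (i + nn a m0) ρ' rfl C.iso
      obtain ⟨it, v1, v2, v3⟩ := F3L P (i₀ := i) (n := nn a m0) (j' := K) (ρ' := ρ')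
            (ρ := ρ) C.iso.hij le_rfl C.iso.hij C.iso.pos C.iso.inner
            (C.iso.left (by omega)) (fun m h1 h2 => C.lgap m (by omega) h2)
            (I.inner i le_rfl (by have := C.iso.hij; omega)) le_rfl
      refine (hcore.succ C.sub v1 v2 (v3 i K le_rfl le_rfl le_rfl)).mono Set.Subset.rfl ?_
      have e : (K - (i + nn a m0) + 1) + nn a m0 = s := by
        have := C.iso.hij; omega
      have e' : (s : ℝ) = ((K - (i + nn a m0) + 1 : ℕ) : ℝ) + nn a m0 := by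
        exact_mod_cast e.symm
      have e2 : ((QQ a m0 : ℕ) : ℝ) = 4 * (nn a m0 + 1) + 4 := by unfold QQ; push_cast; ring
      have e3 : (s : ℝ) / QQ a m0 ≤ ((K - (i + nn a m0) + 1 : ℕ) : ℝ) / QQ a m0 + 1 := by
        rw [div_add' _ _ _ hQ.ne', div_le_div_iff_of_pos_right hQ, e2]
        have : (0 : ℝ) ≤ nn a m0 := Nat.cast_nonneg _
        linarith
      linarith
  · refine (HasFam.zero t K _).mono Set.Subset.rfl ?_
    have e : (s : ℝ) / QQ a m0 ≤ 1 / 2 := by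
      rw [div_le_iff₀ hQ]
      have : (2 * s : ℝ) ≤ QQ a m0 := by exact_mod_cast hsmall
      linarith
    linarith

end Pool.Agent.W_be22fd_h76sel
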