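import Pool.Agent.W_be22fd_h76sel.Basic

/-!
MP_be22fd_co, lower bound: the items of the selection lemma.
-/

namespace Pool.Agent.W_be22fd_h76sel

open Metric Real

lemma exp_55 : (6.5 : ℝ) ≤ exp (11 / 2) := by
  have := Real.add_one_le_exp (11 / 2 : ℝ)
  linarith

/-! ### M items -/

/-- item for a gap which is not longer than the next one -/
lemma itemM_right (t : ℕ → ℝ) (K l : ℕ) (hl : l + 1 < K) (ha : 0 < gap t l)
    (hnext : gap t l ≤ gap t (l + 1)) :
    ∃ it : Item, it.Valid t K ∧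
      it.supp = D (t l - gap t l / 4) (t (l + 1) + gap t l / 2) := by
  refine ⟨Item.M (l + 1) (t l + 5 / 8 * gap t l) (7 / 8 * gap t l) (t (l + 1))
    (t (l + 1) + gap t l / 8), ?_, ?_⟩
  · unfold gap at *
    simp only [Item.Valid, Nat.add_sub_cancel]
    refine ⟨by omega, hl, by linarith, le_rfl, by linarith, by linarith, by linarith, by linarith,
      by linarith, by linarith, by linarith⟩
  · rw [supp_M]
    unfold gap
    congr 1 <;> ring

lemma itemM_min (t : ℕ → ℝ) (K l : ℕ) (hl : l + 1 < K) (ha : 0 < gap t l)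
    (hnext : gap t l ≤ gap t (l + 1)) :
    ∃ it : Item, it.Valid t K ∧
      it.supp = D (t l - gap t l / 2) (t (l + 1) + gap t l / 2) := by
  refine ⟨Item.M (l + 1) (t l + 1 / 2 * gap t l) (gap t l) (t (l + 1))
    (t (l + 1) + gap t l / 8), ?_, ?_⟩
  · unfold gap at *
    simp only [Item.Valid, Nat.add_sub_cancel]
    refine ⟨by omega, hl, by linarith, le_rfl, by linarith, by linarith, by linarith, by linarith,
      by linarith, by linarith, by linarith⟩
  · rw [supp_M]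
    unfold gap
    congr 1 <;> ring

/-- item for a gap which is at most twice the next one -/
lemma itemM_left (t : ℕ → ℝ) (K l : ℕ) (hl : l + 1 < K) (ha : 0 < gap t (l + 1))
    (h1 : gap t (l + 1) ≤ gap t l) (h2 : gap t l ≤ 2 * gap t (l + 1)) :
    ∃ it : Item, it.Valid t K ∧
      it.supp = D (t l - gap t l / 4) (t (l + 1) + gap t (l + 1) / 2) := by
  refine ⟨Item.M (l + 1) (t l + 3 / 8 * gap t l + gap t (l + 1) / 4)
    (5 / 8 * gap t l + gap t (l + 1) / 4) (t (l + 1))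
    (t (l + 1) + gap t (l + 1) / 8), ?_, ?_⟩
  · unfold gap at *
    simp only [Item.Valid, Nat.add_sub_cancel]
    refine ⟨by omega, hl, by linarith, le_rfl, by linarith, by linarith, by linarith, by linarith,
      by linarith, by linarith, by linarith⟩
  · rw [supp_M]
    unfold gap
    congr 1 <;> ring

/-! ### Z items -/

lemma itemZ_right (t : ℕ → ℝ) (K k : ℕ) (p u0 u1 : ℝ) (hk : 1 ≤ k) (hkK : k < K)
    (hp0 : t 0 ≤ p) (hpK : p ≤ t K) (hu0 : 0 < u0) (hu1 : 2 * u0 ≤ u1)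
    (h1 : t (k - 1) = p + u0) (h2 : t k = p + u1) (h3 : p + 2 * u1 ≤ t (k + 1)) :
    (Item.Z k p 1 (log u1) (2 * (log u1 - log u0) + 11)).Valid t K := by
  have hu1' : 0 < u1 := by linarith
  have hlog : log u0 ≤ log u1 := Real.log_le_log hu0 (by linarith)
  have e1 : exp (log u1 - (2 * (log u1 - log u0) + 11) / 2) = u0 / exp (11 / 2) := by
    have : log u1 - (2 * (log u1 - log u0) + 11) / 2 = log u0 - 11 / 2 := by ring
    rw [this, exp_sub, exp_log hu0]
  have e2 : exp (log u1 + (2 * (log u1 - log u0) + 11) / 2) = u1 * (u1 / u0) * exp (11 / 2) := by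
    have : log u1 + (2 * (log u1 - log u0) + 11) / 2 = log u1 + (log u1 - log u0) + 11 / 2 := by
      ring
    rw [this, exp_add, exp_add, exp_sub, exp_log hu0, exp_log hu1']
  have e3 := exp_55
  have hr : 2 ≤ u1 / u0 := by rw [le_div_iff₀ hu0]; exact hu1
  have hbig : 13 * u1 ≤ u1 * (u1 / u0) * exp (11 / 2) := by
    have : 2 * 6.5 ≤ (u1 / u0) * exp (11 / 2) := mul_le_mul hr e3 (by norm_num) (by linarith)
    nlinarith
  have hsmall : 6 * (u0 / exp (11 / 2)) ≤ u0 := by
    rw [← mul_div_assoc, div_le_iff₀ (by linarith)]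
    nlinarith
  simp only [Item.Valid]
  refine ⟨hk, hkK, hp0, hpK, by linarith, Or.inl ⟨trivial, ?_, ?_, ?_, ?_, ?_⟩⟩
  · rw [exp_log hu1']; exact h2.le
  · rw [exp_log hu1']; exact h3
  · rw [e1, h1]; linarith
  · rw [e2, exp_log hu1', h1]; linarith
  · rw [e2, exp_log hu1', h1]; linarith

lemma itemZ_left (t : ℕ → ℝ) (K k : ℕ) (p v0 v1 : ℝ) (hk : 1 ≤ k) (hkK : k < K)
    (hp0 : t 0 ≤ p) (hpK : p ≤ t K) (hv0 : 0 < v0) (hv1 : v0 ≤ v1)
    (h1 : t (k - 1) = p - v1) (h2 : t k = p - v0) (h3 : p - v0 / 2 ≤ t (k + 1)) :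
    (Item.Z k p (-1) (log v0 - log 2) (2 * (log v1 - log v0) + 11)).Valid t K := by
  have hv1' : 0 < v1 := by linarith
  have hlog : log v0 ≤ log v1 := Real.log_le_log hv0 hv1
  have e0 : exp (log v0 - log 2) = v0 / 2 := by
    rw [exp_sub, exp_log hv0, exp_log (by norm_num)]
  have e1 : exp (log v0 - log 2 - (2 * (log v1 - log v0) + 11) / 2) =
      v0 / 2 * (v0 / v1) / exp (11 / 2) := by
    have : log v0 - log 2 - (2 * (log v1 - log v0) + 11) / 2 =
        (log v0 - log 2) + (log v0 - log v1) - 11 / 2 := by ring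
    rw [this, exp_sub, exp_add, e0, exp_sub (log v0) (log v1), exp_log hv0, exp_log hv1']
  have e2 : exp (log v0 - log 2 + (2 * (log v1 - log v0) + 11) / 2) =
      v1 / 2 * exp (11 / 2) := by
    have : log v0 - log 2 + (2 * (log v1 - log v0) + 11) / 2 =
        (log v1 - log 2) + 11 / 2 := by ring
    rw [this, exp_add, exp_sub, exp_log hv1', exp_log (by norm_num)]
  have e3 := exp_55
  have hr : v0 / v1 ≤ 1 := by rw [div_le_one hv1']; exact hv1
  have hr0 : 0 < v0 / v1 := by positivity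
  have hbig : 3 * v1 ≤ v1 / 2 * exp (11 / 2) := by nlinarith
  have hsmall : 6 * (v0 / 2 * (v0 / v1) / exp (11 / 2)) ≤ v0 / 2 := by
    rw [← mul_div_assoc, div_le_iff₀ (by linarith)]
    have : v0 / 2 * (v0 / v1) ≤ v0 / 2 := by nlinarith
    nlinarith
  simp only [Item.Valid]
  refine ⟨hk, hkK, hp0, hpK, by linarith, Or.inr ⟨trivial, ?_, ?_, ?_, ?_, ?_⟩⟩
  · rw [e0, h2]; linarith
  · rw [e0]; exact h3
  · rw [e0, e1]; linarith
  · rw [e0, e2, h1]; linarith
  · rw [e0, e2, h1]; linarith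

/-- support of a `Z` item between two balls -/
lemma suppZ_subset {k : ℕ} {p s τ B R : ℝ} (h : 2 * exp (τ + B) ≤ R) :
    (Item.Z k p s τ B).supp ⊆ D (p - R) (p + R) := by
  rw [← ball_eq_D]
  intro z hz
  simp only [Item.supp, Set.mem_ofPred_eq] at hz
  rw [mem_ball, Complex.dist_eq]
  linarith [hz.2]

lemma suppZ_disjoint {k : ℕ} {p s τ B R : ℝ} (h : R ≤ exp (τ - B)) :
    Disjoint (Item.Z k p s τ B).supp (D (p - R) (p + R)) := by
  rw [← ball_eq_D, Set.disjoint_left]
  intro z hz hz2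
  simp only [Item.supp, Set.mem_ofPred_eq] at hz
  rw [mem_ball, Complex.dist_eq] at hz2
  linarith [hz.1]

/-! ### Fast sequences -/

lemma vfacts (v : ℕ → ℝ) (n : ℕ) (h0 : v 0 = 0) (h1 : 0 < v 1)
    (hf : ∀ m, 1 ≤ m → m < n → 2 * (v m - v (m - 1)) < v (m + 1) - v m) :
    (∀ m, 1 ≤ m → m ≤ n → 0 < v m ∧ v m ≤ 2 * (v m - v (m - 1))) ∧
    (∀ m, 1 ≤ m → m < n → 2 * v m ≤ v (m + 1)) ∧ (∀ m, m < n → 2 ^ m * v 1 ≤ v (m + 1)) := by
  have A : ∀ m, 1 ≤ m → m ≤ n → 0 < v m ∧ v m ≤ 2 * (v m - v (m - 1)) := by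
    intro m hm
    induction m, hm using Nat.le_induction with
    | base => intro _; simp only [Nat.sub_self, h0]; constructor <;> linarith
    | succ m hm ih =>
      intro hmn
      obtain ⟨i1, i2⟩ := ih (by omega)
      have i3 := hf m hm (by omega)
      rw [Nat.add_sub_cancel]
      constructor <;> linarith
  have B : ∀ m, 1 ≤ m → m < n → 2 * v m ≤ v (m + 1) := by
    intro m hm hmn
    obtain ⟨i1, i2⟩ := A m hm (by omega)
    have i3 := hf m hm (by omega)
    linarith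
  refine ⟨A, B, ?_⟩
  intro m
  induction m with
  | zero => intro _; simp
  | succ m ih =>
    intro hmn
    have i1 := ih (by omega)
    have i2 := B (m + 1) (by omega) hmn
    rw [pow_succ]
    linarith

lemma two_thirds_le_log_two : (2 / 3 : ℝ) ≤ log 2 := by
  have := Real.log_two_gt_d9
  linarith

/-- the sequence of logarithms satisfies the hypotheses of `good_index` -/
lemma fast_log (v : ℕ → ℝ) (n c m0 : ℕ) (M : ℝ) (hc : 1 ≤ c) (hn : c + (2 * (23 + m0) + 1) ≤ n)
    (hpos : ∀ m, 1 ≤ m → m ≤ n → 0 < v m) (hdouble : ∀ m, 1 ≤ m → m < n → 2 * v m ≤ v (m + 1))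
    (hrange : v n ≤ exp M * v c) :
    (∀ i < n - c, (fun q => log (v (c + q))) i + 2 / 3 ≤ (fun q => log (v (c + q))) (i + 1)) ∧
    (fun q => log (v (c + q))) (n - c) - (fun q => log (v (c + q))) 0 ≤ M := by
  constructor
  · intro i hi
    simp only
    have h1 := hdouble (c + i) (by omega) (by omega)
    have h2 := hpos (c + i) (by omega) (by omega)
    have h3 : log (2 * v (c + i)) ≤ log (v (c + (i + 1))) := by
      apply Real.log_le_log (by linarith)
      rw [← add_assoc]; exact h1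
    rw [Real.log_mul (by norm_num) h2.ne'] at h3
    have := two_thirds_le_log_two
    linarith
  · simp only [add_zero]
    have h2 := hpos c hc (by omega)
    have h3 := hpos n (by omega) le_rfl
    have e : c + (n - c) = n := by omega
    rw [e]
    have h4 := Real.log_le_log h3 hrange
    rw [Real.log_mul (exp_pos M).ne' h2.ne', Real.log_exp] at h4
    linarith

lemma fastIndexR (v : ℕ → ℝ) (n c m0 : ℕ) (M : ℝ) (hc : 1 ≤ c)
    (hn : c + (2 * (23 + m0) + 1) ≤ n) (hM : M < (3 / 2 : ℝ) ^ m0)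
    (hpos : ∀ m, 1 ≤ m → m ≤ n → 0 < v m) (hdouble : ∀ m, 1 ≤ m → m < n → 2 * v m ≤ v (m + 1))
    (hrange : v n ≤ exp M * v c) :
    ∃ i, c < i ∧ i < n ∧ 2 * (log (v i) - log (v (i - 1))) + 14 ≤ log (v i) - log (v c) ∧
      2 * (log (v i) - log (v (i - 1))) + 14 ≤ log (v n) - log (v i) := by
  obtain ⟨h1, h2⟩ := fast_log v n c m0 M hc hn hpos hdouble hrange
  obtain ⟨q, q1, q2, q3, q4⟩ := good_index _ (n - c) m0 M hM h1 h2 (by omega)
  refine ⟨c + q, by omega, by omega, ?_, ?_⟩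
  · have e : c + (q - 1) = c + q - 1 := by omega
    simpa only [e, add_zero] using q3
  · have e : c + (q - 1) = c + q - 1 := by omega
    have e' : c + (n - c) = n := by omega
    simpa only [e, e', add_zero] using q4

lemma fastIndexL (v : ℕ → ℝ) (n c m0 : ℕ) (M : ℝ) (hc : 1 ≤ c)
    (hn : c + (2 * (23 + m0) + 1) ≤ n) (hM : M < (3 / 2 : ℝ) ^ m0)
    (hpos : ∀ m, 1 ≤ m → m ≤ n → 0 < v m) (hdouble : ∀ m, 1 ≤ m → m < n → 2 * v m ≤ v (m + 1))
    (hrange : v n ≤ exp M * v c) :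
    ∃ i, c < i ∧ i < n ∧ 2 * (log (v (i + 1)) - log (v i)) + 14 ≤ log (v i) - log (v c) ∧
      2 * (log (v (i + 1)) - log (v i)) + 14 ≤ log (v n) - log (v i) := by
  obtain ⟨h1, h2⟩ := fast_log v n c m0 M hc hn hpos hdouble hrange
  obtain ⟨q, q1, q2, q3, q4⟩ := good_index' _ (n - c) m0 M hM h1 h2 (by omega)
  refine ⟨c + q, by omega, by omega, ?_, ?_⟩
  · simpa only [add_zero, ← add_assoc] using q3
  · have e' : c + (n - c) = n := by omega
    simpa only [e', add_zero, ← add_assoc] using q4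

end Pool.Agent.W_be22fd_h76sel
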