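import Pool.Agent.W_be22fd_h76sel.Claim

/-!
MP_be22fd_co, lower bound: the selection theorem.
-/

namespace Pool.Agent.W_be22fd_h76sel

open Metric Real

variable {t : ℕ → ℝ} {K a m0 : ℕ} {M : ℝ}

lemma QQ_pos (a m0 : ℕ) : (0 : ℝ) < QQ a m0 := by unfold QQ; positivity

/-- Splitting at the gaps longer than `G`. -/
theorem components (P : Pts t K a m0 M) {G : ℝ} (hG : 0 < G) : ∀ (s i j : ℕ), j - i = s → i ≤ j →
    j ≤ K → (0 < i → G ≤ gap t (i - 1)) → (j < K → G ≤ gap t j) →
    HasFam t K (Hd t i j G) (((j - i + 1 : ℕ) : ℝ) / QQ a m0 - (1 + (t j - t i) / G) / QQ a m0 -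
      (if j = K then 1 / 2 else 0)) := by
  have hQ := QQ_pos a m0
  intro s
  induction s using Nat.strong_induction_on with
  | _ s IH =>
  intro i j hs hij hjK hl hr
  by_cases hbig : ∃ l, i ≤ l ∧ l < j ∧ G ≤ gap t l
  · obtain ⟨l, l1, l2, l3⟩ := hbig
    have f1 := IH (l - i) (by omega) i l rfl l1 (by omega) hl (fun _ => l3)
    have f2 := IH (j - (l + 1)) (by omega) (l + 1) j rfl (by omega) hjK (fun _ => by simpa using l3)
      hr
    rw [if_neg (by omega)] at f1
    have hd : Disjoint (Hd t i l G) (Hd t (l + 1) j G) := by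
      unfold Hd
      apply D_disjoint
      unfold gap at l3
      linarith
    refine (f1.add f2 hd ?_ ?_).mono Set.Subset.rfl ?_
    · unfold Hd
      have := P.mono (i := l) (j := j) (by omega) hjK
      apply D_subset <;> linarith
    · unfold Hd
      have := P.mono (i := i) (j := l + 1) (by omega) (by omega)
      apply D_subset <;> linarith
    · have e : j - i + 1 = (l - i + 1) + (j - (l + 1) + 1) := by omega
      have e' : ((j - i + 1 : ℕ) : ℝ) = ((l - i + 1 : ℕ) : ℝ) + ((j - (l + 1) + 1 : ℕ) : ℝ) := by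
        exact_mod_cast e
      have e2 : (1 : ℝ) ≤ gap t l / G := by rw [le_div_iff₀ hG]; linarith
      have e3 : (t j - t i) / G = (t l - t i) / G + gap t l / G + (t j - t (l + 1)) / G := by
        unfold gap; ring
      rw [e', e3]
      have e4 : ((l - i + 1 : ℕ) : ℝ) / QQ a m0 - (1 + (t l - t i) / G) / QQ a m0 - 0 +
          (((j - (l + 1) + 1 : ℕ) : ℝ) / QQ a m0 - (1 + (t j - t (l + 1)) / G) / QQ a m0 -
            (if j = K then 1 / 2 else 0)) =
          (((l - i + 1 : ℕ) : ℝ) + ((j - (l + 1) + 1 : ℕ) : ℝ)) / QQ a m0 -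
            (1 + ((t l - t i) / G + 1 + (t j - t (l + 1)) / G)) / QQ a m0 -
            (if j = K then 1 / 2 else 0) := by ring
      rw [e4]
      have e5 : (1 + ((t l - t i) / G + 1 + (t j - t (l + 1)) / G)) / (QQ a m0 : ℝ) ≤
          (1 + ((t l - t i) / G + gap t l / G + (t j - t (l + 1)) / G)) / QQ a m0 := by
        rw [div_le_div_iff_of_pos_right hQ]
        linarith
      linarith
  · push Not at hbig
    have I : Iso t K i j G := ⟨hij, hjK, hG, fun l h1 h2 => (hbig l h1 h2).le, hl, hr⟩
    have hlen : 0 ≤ (t j - t i) / G := by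
      have := P.mono hij hjK
      apply div_nonneg _ hG.le
      linarith
    rcases Nat.eq_or_lt_of_le hjK with h | h
    · subst h
      refine (claimB P (j - i + 1) i G rfl I).mono Set.Subset.rfl ?_
      rw [if_pos rfl]
      have : 0 ≤ (1 + (t j - t i) / G) / (QQ a m0 : ℝ) := by positivity
      linarith
    · rw [if_neg (by omega)]
      rcases Nat.eq_or_lt_of_le hij with h' | h'
      · subst h'
        refine (HasFam.zero t K _).mono Set.Subset.rfl ?_
        simp
      · refine (claimA P (j - i + 1) i j G rfl I h h').mono Set.Subset.rfl ?_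
        have : 0 ≤ (1 + (t j - t i) / G) / (QQ a m0 : ℝ) := by positivity
        linarith

/-- every valid item meeting the excluded disc contains one of its two real boundary points -/
lemma meets_excl (P : Pts t K a m0 M) {it : Item} (hv : it.Valid t K) {c r : ℝ} (hr : 0 < r)
    (hY : c + 3 * r ≤ t 0 ∨ t K + 3 * r ≤ c) {z : ℂ} (hz : z ∈ it.supp) (hzc : ‖z - (c : ℂ)‖ ≤ r) :
    ((c - r : ℝ) : ℂ) ∈ it.supp ∨ ((c + r : ℝ) : ℂ) ∈ it.supp := by
  cases it with
  | M k e ρ x0 x1 =>
    obtain ⟨v1, v2, v3, v4, v5, v6, v7, v8, v9, v10, v11⟩ := hv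
    simp only [Item.supp] at hz ⊢
    rw [mem_ball, Complex.dist_eq] at hz
    have h1 : |c - e| < ρ + r := by
      have : ‖((c : ℂ) - (e : ℂ))‖ ≤ ‖z - (c : ℂ)‖ + ‖z - (e : ℂ)‖ := by
        have : (c : ℂ) - e = -(z - c) + (z - e) := by ring
        rw [this]
        refine (norm_add_le _ _).trans ?_
        rw [norm_neg]
      rw [← Complex.ofReal_sub, Complex.norm_real, Real.norm_eq_abs] at this
      linarith
    rw [abs_lt] at h1
    have t0 : t 0 ≤ t k := P.mono (by omega) (by omega)
    have tK : t (k + 1) ≤ t K := P.mono (by omega) (by omega)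
    rw [mem_ball, mem_ball, dist_real, dist_real]
    rcases hY with hY | hY
    · right
      rw [abs_lt]
      constructor <;> linarith
    · left
      rw [abs_lt]
      constructor <;> linarith
  | Z k p s τ B =>
    obtain ⟨v1, v2, v3, v4, v5, -⟩ := hv
    simp only [Item.supp, Set.mem_ofPred_eq] at hz ⊢
    obtain ⟨z1, z2⟩ := hz
    have hexp : 2 * exp (τ - B) < 2 * exp (τ + B) / 2 := by
      have h1 : exp (τ + B) = exp (τ - B) * exp (2 * B) := by
        rw [← exp_add]; ring_nf
      have h2 := Real.add_one_le_exp (2 * B)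
      have h3 := exp_pos (τ - B)
      rw [h1]
      nlinarith
    have hnorm : ∀ x : ℝ, ‖((x : ℝ) : ℂ) - (p : ℂ)‖ = |x - p| := by
      intro x
      rw [← Complex.ofReal_sub, Complex.norm_real, Real.norm_eq_abs]
    have h1 : ‖z - (p : ℂ)‖ ≤ |c - p| + r := by
      have : z - (p : ℂ) = (z - c) + (c - p) := by ring
      rw [this]
      refine (norm_add_le _ _).trans ?_
      rw [hnorm]
      linarith
    have h2 : |c - p| - r ≤ ‖z - (p : ℂ)‖ := by
      have : (c : ℂ) - p = -(z - c) + (z - p) := by ring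
      have h3 : ‖(c : ℂ) - p‖ ≤ ‖z - (c : ℂ)‖ + ‖z - (p : ℂ)‖ := by
        rw [this]
        refine (norm_add_le _ _).trans ?_
        rw [norm_neg]
      rw [hnorm] at h3
      linarith
    rw [hnorm, hnorm]
    have hexp0 := exp_pos (τ - B)
    rcases hY with hY | hY
    · rw [abs_of_nonpos (by linarith : c - p ≤ 0)] at h1 h2
      rw [abs_of_nonpos (by linarith : c - r - p ≤ 0), abs_of_nonpos (by linarith : c + r - p ≤ 0)]
      by_cases hc : -(c - r - p) < 2 * exp (τ + B)
      · left; constructor <;> linarith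
      · right; constructor <;> linarith
    · rw [abs_of_nonneg (by linarith : 0 ≤ c - p)] at h1 h2
      rw [abs_of_nonneg (by linarith : 0 ≤ c - r - p), abs_of_nonneg (by linarith : 0 ≤ c + r - p)]
      by_cases hc : (c + r - p) < 2 * exp (τ + B)
      · right; constructor <;> linarith
      · left; constructor <;> linarith

open Classical in
lemma filter_point_length (L : List Item) (hL : L.Pairwise (fun a b => Disjoint a.supp b.supp))
    (q : ℂ) : (L.filter (fun it => q ∈ it.supp)).length ≤ 1 := by
  by_contra h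
  push Not at h
  have hp := hL.filter (fun it => decide (q ∈ it.supp))
  match hf : L.filter (fun it => decide (q ∈ it.supp)) with
  | [] => rw [hf] at h; simp at h
  | [x] => rw [hf] at h; simp at h
  | x :: y :: l =>
    rw [hf] at hp
    have hxy : Disjoint x.supp y.supp := by
      rw [List.pairwise_cons] at hp
      exact hp.1 y (by simp)
    have hx : x ∈ L.filter (fun it => decide (q ∈ it.supp)) := by rw [hf]; simp
    have hy : y ∈ L.filter (fun it => decide (q ∈ it.supp)) := by rw [hf]; simp
    rw [List.mem_filter] at hx hy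
    exact Set.disjoint_left.1 hxy (by simpa using hx.2) (by simpa using hy.2)

open Classical in
lemma filter_two_points (L : List Item) (hL : L.Pairwise (fun a b => Disjoint a.supp b.supp))
    (q q' : ℂ) :
    (L.length : ℝ) - 2 ≤ ((L.filter (fun it => ¬ (q ∈ it.supp ∨ q' ∈ it.supp))).length : ℝ) := by
  have h1 := filter_point_length L hL q
  have h2 := filter_point_length L hL q'
  have h3 : L.length ≤ (L.filter (fun it => q ∈ it.supp)).length +
      (L.filter (fun it => q' ∈ it.supp)).length +
      (L.filter (fun it => ¬ (q ∈ it.supp ∨ q' ∈ it.supp))).length := by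
    clear h1 h2 hL
    induction L with
    | nil => simp
    | cons x L ih =>
      simp only [List.filter_cons]
      by_cases a1 : q ∈ x.supp <;> by_cases a2 : q' ∈ x.supp <;>
        simp only [a1, a2, decide_true, decide_false, if_true, or_self, or_true,
          true_or, false_or, or_false, not_true_eq_false, not_false_eq_true, List.length_cons,
          Bool.false_eq_true, if_false] <;> omega
  have h4 : L.length ≤ 2 + (L.filter (fun it => ¬ (q ∈ it.supp ∨ q' ∈ it.supp))).length := by
    omega
  have h5 : (L.length : ℝ) ≤ 2 + ((L.filter (fun it => ¬ (q ∈ it.supp ∨ q' ∈ it.supp))).length : ℝ) := by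
    exact_mod_cast h4
  linarith

/-- **Selection theorem.** -/
theorem selection (P : Pts t K a m0 M) (c r : ℝ)
    (hY : r ≤ 0 ∨ c + 3 * r ≤ t 0 ∨ t K + 3 * r ≤ c) :
    ∃ L : List Item, ((K : ℝ) - 8) / QQ a m0 - 5 / 2 ≤ L.length ∧
      L.Pairwise (fun a b => Disjoint a.supp b.supp) ∧
      ∀ it ∈ L, it.Valid t K ∧
        it.supp ⊆ D (t 0 - (t K - t 0) / 16) (t K + (t K - t 0) / 16) ∧
        (0 < r → ∀ z ∈ it.supp, r < ‖z - (c : ℂ)‖) := by
  classical
  have hQ := QQ_pos a m0
  have hlen : 0 < t K - t 0 := by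
    have h1 := P.pos 0 P.K_pos
    have h2 := P.mono (i := 1) (j := K) P.K_pos le_rfl
    unfold gap at h1
    simp only [zero_add] at h1
    linarith
  have hG : 0 < (t K - t 0) / 8 := by linarith
  obtain ⟨L, l1, l2, l3⟩ := components P hG K 0 K (by simp) (by simp) le_rfl (by simp) (by simp)
  have hcount : ((K : ℝ) - 8) / QQ a m0 - 1 / 2 ≤ L.length := by
    refine le_trans (le_of_eq ?_) l1
    rw [if_pos rfl]
    have e : (t K - t 0) / ((t K - t 0) / 8) = 8 := by field_simp
    rw [e]
    push_cast [Nat.sub_zero]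
    ring
  have hHd : Hd t 0 K ((t K - t 0) / 8) ⊆ D (t 0 - (t K - t 0) / 16) (t K + (t K - t 0) / 16) := by
    unfold Hd
    apply D_subset <;> linarith
  rcases lt_or_ge 0 r with hr | hr
  · have hY' : c + 3 * r ≤ t 0 ∨ t K + 3 * r ≤ c := by
      rcases hY with h | h
      · exact absurd hr (not_lt.2 h)
      · exact h
    refine ⟨L.filter (fun it => ¬ (((c - r : ℝ) : ℂ) ∈ it.supp ∨ ((c + r : ℝ) : ℂ) ∈ it.supp)),
      ?_, l2.filter _, ?_⟩
    · have := filter_two_points L l2 ((c - r : ℝ) : ℂ) ((c + r : ℝ) : ℂ)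
      linarith
    · intro it hit
      rw [List.mem_filter] at hit
      obtain ⟨m1, m2⟩ := hit
      refine ⟨(l3 it m1).1, (l3 it m1).2.trans hHd, ?_⟩
      intro _ z hz
      by_contra hcon
      push Not at hcon
      have := meets_excl P (l3 it m1).1 hr hY' hz hcon
      simp only [decide_eq_true_eq] at m2
      exact m2 this
  · refine ⟨L, by linarith, l2, fun it hit => ⟨(l3 it hit).1, (l3 it hit).2.trans hHd, ?_⟩⟩
    intro h
    exact absurd h (not_lt.2 hr)

end Pool.Agent.W_be22fd_h76sel
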